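import Mathlib

set_option autoImplicit false

/-!
Choice functions of a set of integers: definitions.
-/

namespace Pool.Agent.Helper57.U2

open Finset Filter

open Classical in
/-- The number of ordered pairs of elements of `A` with sum `n`. -/
noncomputable def rep (A : Set ℕ) (n : ℕ) : ℕ := #{p ∈ antidiagonal n | p.1 ∈ A ∧ p.2 ∈ A}

/-- `f` chooses a representation `n = f(n) + (n - f(n))` with both summands in `A`, for every
`n` in `D`. -/
def IsChoice (A D : Set ℕ) (f : ℕ → ℕ) : Prop := ∀ n ∈ D, f n ≤ n ∧ f n ∈ A ∧ n - f n ∈ A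

open Classical in
/-- The elements of `D` below `x`. -/
noncomputable def upTo (D : Set ℕ) (x : ℕ) : Finset ℕ := {n ∈ range x | n ∈ D}

/-- The digit of `n` at position `i` in base `b`. -/
def digit (b i n : ℕ) : ℕ := n / b ^ i % b

/-- `J i n` guesses the digit of `f(n)` at position `i` with advantage `ε`: it is right for at
least the proportion `1 / b + ε` of the pairs `(n, i)`, `n` in `D` below `b ^ K`, `i < K`. -/
def Guesses (b K : ℕ) (ε : ℝ) (D : Set ℕ) (f : ℕ → ℕ) (J : ℕ → ℕ → ℕ) : Prop :=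
  (1 / b + ε) * (K * #(upTo D (b ^ K))) ≤
    ∑ n ∈ upTo D (b ^ K), (#{i ∈ range K | J i n = digit b i (f n)} : ℝ)

/-- The average sensitivity: the mean over `i < K` and `n < b ^ K` of the number of `j < K`
for which `J i n` changes when `b ^ j` is added to `n` modulo `b ^ K`. -/
noncomputable def sensitivity (b K : ℕ) (J : ℕ → ℕ → ℕ) : ℝ :=
  (∑ i ∈ range K, ∑ j ∈ range K,
    (#{n ∈ range (b ^ K) | J i n ≠ J i ((n + b ^ j) % b ^ K)} : ℝ)) / (K * (b : ℝ) ^ K)

/-- `g` is a function of at most `v` base `b` digits of its argument. -/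
def FewDigits (b v : ℕ) (g : ℕ → ℕ) : Prop :=
  ∃ Q : Finset ℕ, #Q ≤ v ∧ ∀ m n, (∀ q ∈ Q, digit b q m = digit b q n) → g m = g n

/-- `g` is a function of all digits of its argument at the positions `≤ i + w` and of at most `w`
further digits. -/
def MemoryAndFewDigits (b w i : ℕ) (g : ℕ → ℕ) : Prop :=
  ∃ Q : Finset ℕ, #Q ≤ w ∧ ∀ m n, m % b ^ (i + w + 1) = n % b ^ (i + w + 1) →
    (∀ q ∈ Q, digit b q m = digit b q n) → g m = g n

/-- `e(t) = exp(2πit)` -/
noncomputable def e (t : ℝ) : ℂ := Complex.exp (2 * Real.pi * Complex.I * t)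

/-- Quadratic almost periodic sequences: mean square limits of finite sums of
`c e(α n² + β n)`. -/
def QuadraticAlmostPeriodic (h : ℕ → ℂ) : Prop :=
  ∀ ε : ℝ, 0 < ε → ∃ (J : Finset (ℝ × ℝ)) (c : ℝ × ℝ → ℂ), ∀ᶠ x : ℕ in atTop,
    ∑ n ∈ range x, ‖h n - ∑ j ∈ J, c j * e (j.1 * n ^ 2 + j.2 * n)‖ ^ 2 ≤ ε * x

/-- The sequence `e(ψ f(n))`, `n` in `D`, is `δ`-correlated, at the scales in `X`, with a quadratic
almost periodic sequence bounded by one. -/
def GuessedQuadratically (δ : ℝ) (X D : Set ℕ) (f : ℕ → ℕ) (ψ : ℝ) : Prop :=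
  ∃ h : ℕ → ℂ, (∀ n, ‖h n‖ ≤ 1) ∧ QuadraticAlmostPeriodic h ∧ ∀ᶠ x : ℕ in atTop, x ∈ X →
    δ * x ≤ ‖∑ n ∈ upTo D x, e (ψ * f n) * (starRingEnd ℂ) (h n)‖

end Pool.Agent.Helper57.U2
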