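import Pool.Agent.Helper57.U2.Defs
import Pool.Agent.Helper57.UC.Main
import Pool.Agent.Helper57.ON.Main
import Pool.Agent.Helper57.SC.Main

set_option autoImplicit false

/-!
Unpredictable choice functions: the clauses.
-/

namespace Pool.Agent.Helper57.U2

open Finset Filter Topology
open Pool.Agent.Helper25.RC (below mem_below below_subset_range repF_below_le repF)
open Pool.Agent.Helper7.SC (StA1 StA2 StA3 StA4)
open Pool.Agent.Helper43.SC (StC)

lemma upTo_eq (D : Set ℕ) (x : ℕ) : upTo D x = below D x := rfl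

/-- restriction to `A` below `x` -/
lemma choice_below {A D : Set ℕ} {f : ℕ → ℕ} (hf : IsChoice A D f) (x : ℕ) :
    ∀ n ∈ upTo D x, f n ≤ n ∧ f n ∈ below A x ∧ n - f n ∈ below A x := by
  intro n hn
  obtain ⟨h2, h3⟩ := mem_below.1 hn
  obtain ⟨h4, h5, h6⟩ := hf n h3
  exact ⟨h4, mem_below.2 ⟨by omega, h5⟩, mem_below.2 ⟨by omega, h6⟩⟩

lemma sum_repF_le (A : Set ℕ) (x : ℕ) : ∑ n ∈ range (2 * x), ((repF (below A x) n : ℕ) : ℝ) ^ 2 ≤
    ∑ n ∈ range (2 * x), (rep A n : ℝ) ^ 2 := by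
  refine Finset.sum_le_sum fun n _ => ?_
  have : (repF (below A x) n : ℝ) ≤ rep A n := by exact_mod_cast repF_below_le A x n
  exact pow_le_pow_left₀ (Nat.cast_nonneg _) this 2

/-- the trivial bound -/
lemma trivial_bound {A D : Set ℕ} {f : ℕ → ℕ} (hf : IsChoice A D f) {x : ℕ} {t : ℝ}
    (h : t ≤ #(upTo D x)) : t ≤ ∑ n ∈ range (2 * x), (rep A n : ℝ) ^ 2 := by
  classical
  refine h.trans ?_
  have h2 : (#(upTo D x) : ℝ) = ∑ _n ∈ upTo D x, (1 : ℝ) := by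
    rw [Finset.sum_const, nsmul_eq_mul, mul_one]
  rw [h2]
  have hDs : upTo D x ⊆ range (2 * x) :=
    (below_subset_range D x).trans (Finset.range_subset_range.2 (by omega))
  refine le_trans (Finset.sum_le_sum fun n hn => ?_)
    (Finset.sum_le_sum_of_subset_of_nonneg hDs fun _ _ _ => sq_nonneg _)
  obtain ⟨_, h3⟩ := mem_below.1 hn
  obtain ⟨h4, h5, h6⟩ := hf n h3
  have h2 : 0 < rep A n := by
    refine Finset.card_pos.2 ⟨(f n, n - f n), ?_⟩
    rw [mem_filter, Finset.HasAntidiagonal.mem_antidiagonal]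
    exact ⟨Nat.add_sub_cancel' h4, h5, h6⟩
  have h3 : (1 : ℝ) ≤ (rep A n : ℝ) := by exact_mod_cast h2
  nlinarith

/-- `Guesses` in the other form -/
lemma guesses_iff {b K : ℕ} {ε : ℝ} {D : Set ℕ} {f : ℕ → ℕ} {J : ℕ → ℕ → ℕ}
    (h : Guesses b K ε D f J) : (1 / b + ε) * K * #(upTo D (b ^ K)) ≤
      ∑ n ∈ upTo D (b ^ K), (#{i ∈ range K | Pool.Agent.Helper57.LJ.dig b i (f n) = J i n} : ℝ) := by
  unfold Guesses at h
  rw [mul_assoc]
  refine h.trans (le_of_eq ?_)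
  refine Finset.sum_congr rfl fun n _ => ?_
  congr 2
  ext i
  rw [mem_filter, mem_filter]
  exact ⟨fun h => ⟨h.1, h.2.symm⟩, fun h => ⟨h.1, h.2.symm⟩⟩

/-- the sensitivity clause -/
theorem sens_clause (hC : StC) (hA1 : StA1) (hA2 : StA2) (hA3 : StA3) (hA4 : StA4)
    (b : ℕ) (hb : 2 ≤ b) (ε δ : ℝ) (hε : 0 < ε) (hδ : 0 < δ) :
    ∃ c : ℝ, 0 < c ∧ ∀ (A D : Set ℕ) (f : ℕ → ℕ), IsChoice A D f → ∀ K : ℕ,
      δ * (b : ℝ) ^ K ≤ #(upTo D (b ^ K)) → ∀ J : ℕ → ℕ → ℕ, Guesses b K ε D f J →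
      ∀ s : ℝ, 1 ≤ s → sensitivity b K J ≤ s →
        c * (b : ℝ) ^ K * Real.exp (c * K / s) ≤ ∑ n ∈ range (2 * b ^ K), (rep A n : ℝ) ^ 2 := by
  classical
  obtain ⟨c, hc, h⟩ := Pool.Agent.Helper57.SC.assembly hC hA1 hA2 hA3 hA4 b hb ε δ hε hδ
  have hbr : (0 : ℝ) < b := by
    have : 0 < b := by omega
    exact_mod_cast this
  refine ⟨c, hc, fun A D f hf K hD J hg s hs hsens => ?_⟩
  refine le_trans (h K s hs (below A (b ^ K)) (upTo D (b ^ K)) f J (below_subset_range _ _)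
    (below_subset_range _ _) hD (choice_below hf _) ?_ (guesses_iff hg)) (sum_repF_le A (b ^ K))
  rcases Nat.eq_zero_or_pos K with h0 | h0
  · subst h0
    simp
  · unfold sensitivity at hsens
    have hK : (0 : ℝ) < K := by exact_mod_cast h0
    rw [div_le_iff₀ (by positivity)] at hsens
    refine hsens.trans (le_of_eq ?_)
    ring

/-- the memory clause -/
theorem memory_clause (b w : ℕ) (hb : 2 ≤ b) (ε δ : ℝ) (hε : 0 < ε) (hδ : 0 < δ) :
    ∃ c : ℝ, 0 < c ∧ ∀ (A D : Set ℕ) (f : ℕ → ℕ), IsChoice A D f → ∀ K : ℕ,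
      δ * (b : ℝ) ^ K ≤ #(upTo D (b ^ K)) → ∀ J : ℕ → ℕ → ℕ, Guesses b K ε D f J →
      (∀ i < K, MemoryAndFewDigits b w i (J i)) →
        c * (b : ℝ) ^ K * √K ≤ ∑ n ∈ range (2 * b ^ K), (rep A n : ℝ) ^ 2 := by
  classical
  obtain ⟨c, hc, K₀, h⟩ := Pool.Agent.Helper57.ON.memory_choice b hb w w ε δ hε hδ
  have hbr : (0 : ℝ) < b := by
    have : 0 < b := by omega
    exact_mod_cast this
  refine ⟨min c (δ / (√K₀ + 1)), lt_min hc (by positivity), fun A D f hf K hD J hg hJ => ?_⟩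
  rcases le_or_gt K₀ K with hK | hK
  · have hQ : ∀ i, ∃ Q : Finset ℕ, i < K → #Q ≤ w ∧
        Pool.Agent.Helper57.ON.DependsMem b (b ^ (i + w + 1)) Q (J i) := by
      intro i
      by_cases hi : i < K
      · obtain ⟨Q, hQ⟩ := hJ i hi
        exact ⟨Q, fun _ => hQ⟩
      · exact ⟨∅, fun h' => absurd h' hi⟩
    choose Q hQ using hQ
    have h1 := h K hK (below A (b ^ K)) (upTo D (b ^ K)) f J Q (below_subset_range _ _)
      (below_subset_range _ _) hD (choice_below hf _) hQ (guesses_iff hg)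
    refine le_trans ?_ (h1.trans (sum_repF_le A (b ^ K)))
    have h2 : min c (δ / (√K₀ + 1)) * (b : ℝ) ^ K * √K = min c (δ / (√K₀ + 1)) *
        (√K * (b : ℝ) ^ K) := by ring
    have h3 : c * √K * (b : ℝ) ^ K = c * (√K * (b : ℝ) ^ K) := by ring
    rw [h2, h3]
    exact mul_le_mul_of_nonneg_right (min_le_left _ _) (by positivity)
  · refine trivial_bound hf (le_trans ?_ hD)
    have h1 : √(K : ℝ) ≤ √K₀ + 1 := by
      have : √(K : ℝ) ≤ √K₀ := Real.sqrt_le_sqrt (by exact_mod_cast hK.le)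
      linarith
    calc min c (δ / (√K₀ + 1)) * (b : ℝ) ^ K * √K ≤
          δ / (√K₀ + 1) * (b : ℝ) ^ K * (√K₀ + 1) := by
          refine mul_le_mul ?_ h1 (Real.sqrt_nonneg _) (by positivity)
          exact mul_le_mul_of_nonneg_right (min_le_right _ _) (by positivity)
      _ = δ * (b : ℝ) ^ K := by
          have : √(K₀ : ℝ) + 1 ≠ 0 := by positivity
          field_simp

/-- the quadratic clause -/
theorem quadratic_clause (A D : Set ℕ) (f : ℕ → ℕ) (hf : IsChoice A D f) (X : Set ℕ)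
    (hX : X.Infinite) (C δ : ℝ) (hδ : 0 < δ)
    (hr : ∀ x ∈ X, ∑ n ∈ range (2 * x), (rep A n : ℝ) ^ 2 ≤ C * x) :
    {ψ : ℝ | 0 ≤ ψ ∧ ψ < 1 ∧ GuessedQuadratically δ X D f ψ}.Finite :=
  Pool.Agent.Helper57.UC.quadratic_clause A D f hf X hX C δ hδ hr

end Pool.Agent.Helper57.U2
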