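import Pool.Agent.Helper57.U2.Main

set_option autoImplicit false

/-!
A choice of representations `n = f(n) + (n - f(n))` with both summands in a set `A` with few
representations on average cannot be guessed, not even with a small advantage: neither by
functions of small sensitivity, or of few digits of `n`, nor from all lower digits and few
further digits, nor by quadratic almost periodic sequences. The definitions are in the file
`Defs` of `Pool/Agent/Helper57/U2`.
-/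

namespace Pool.Agent.Helper57.U2.Candidate

open Finset Filter Pool.Agent.Helper57.U2

theorem result (b w : ℕ) (hb : 2 ≤ b) (ε δ : ℝ) (hε : 0 < ε) (hδ : 0 < δ) :
    ∃ c : ℝ, 0 < c ∧ ∀ (A D : Set ℕ) (f : ℕ → ℕ), IsChoice A D f →
      (∀ K : ℕ, δ * (b : ℝ) ^ K ≤ #(upTo D (b ^ K)) → ∀ J : ℕ → ℕ → ℕ, Guesses b K ε D f J →
        (∀ s : ℝ, 1 ≤ s → sensitivity b K J ≤ s →
          c * (b : ℝ) ^ K * Real.exp (c * K / s) ≤ ∑ n ∈ range (2 * b ^ K), (rep A n : ℝ) ^ 2) ∧
        (∀ v : ℕ, 1 ≤ v → (∀ i < K, FewDigits b v (J i)) →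
          c * (b : ℝ) ^ K * Real.exp (c * K / v) ≤ ∑ n ∈ range (2 * b ^ K), (rep A n : ℝ) ^ 2) ∧
        ((∀ i < K, MemoryAndFewDigits b w i (J i)) →
          c * (b : ℝ) ^ K * √K ≤ ∑ n ∈ range (2 * b ^ K), (rep A n : ℝ) ^ 2)) ∧
      (∀ X : Set ℕ, X.Infinite → ∀ C : ℝ,
        (∀ x ∈ X, ∑ n ∈ range (2 * x), (rep A n : ℝ) ^ 2 ≤ C * x) →
        {ψ : ℝ | 0 ≤ ψ ∧ ψ < 1 ∧ GuessedQuadratically δ X D f ψ}.Finite) :=
  main b w hb ε δ hε hδ

end Pool.Agent.Helper57.U2.Candidate
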