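import Pool.Agent.Helper57.U2.Clauses
import Pool.Agent.Helper7.SC.Main
import Pool.Agent.Helper7.SC.A4
import Pool.Agent.Helper43.SC.Br5
import Pool.Agent.Helper81.SC.StB
import Pool.Agent.Helper99.SC.Few
import Pool.Agent.Helper99.SC.Pars

set_option autoImplicit false

/-!
Unpredictable choice functions.
-/

namespace Pool.Agent.Helper57.U2

open Finset Filter
open Pool.Agent.Helper7.SC (StA1 StA2 StA3 StA4)
open Pool.Agent.Helper43.SC (StC)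

/-- functions of few digits have small sensitivity -/
def FewSens : Prop := ∀ (b : ℕ), 2 ≤ b → ∀ (K w : ℕ) (g : ℕ → ℕ) (Q : Finset ℕ), #Q ≤ w →
    (∀ m n, (∀ q ∈ Q, Pool.Agent.Helper57.LJ.dig b q m = Pool.Agent.Helper57.LJ.dig b q n) →
      g m = g n) →
    ∑ j ∈ range K, (#{n ∈ range (b ^ K) | g n ≠ g ((n + b ^ j) % b ^ K)} : ℝ) ≤
      2 * w * (b : ℝ) ^ K

lemma few_sensitivity (hfew : FewSens) {b : ℕ} (hb : 2 ≤ b) {K v : ℕ} {J : ℕ → ℕ → ℕ}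
    (hJ : ∀ i < K, FewDigits b v (J i)) : sensitivity b K J ≤ 2 * v := by
  have hbr : (0 : ℝ) < b := by
    have : 0 < b := by omega
    exact_mod_cast this
  unfold sensitivity
  refine div_le_of_le_mul₀ (by positivity) (by positivity) ?_
  have h1 : ∀ i ∈ range K, ∑ j ∈ range K,
      (#{n ∈ range (b ^ K) | J i n ≠ J i ((n + b ^ j) % b ^ K)} : ℝ) ≤ 2 * v * (b : ℝ) ^ K := by
    intro i hi
    obtain ⟨Q, hQ, hg⟩ := hJ i (mem_range.1 hi)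
    exact hfew b hb K v (J i) Q hQ hg
  refine (Finset.sum_le_sum h1).trans (le_of_eq ?_)
  rw [Finset.sum_const, card_range, nsmul_eq_mul]
  ring

/-- Unpredictable choice. -/
theorem main_of (hC : StC) (hA1 : StA1) (hA2 : StA2) (hA3 : StA3) (hA4 : StA4) (hfew : FewSens)
    (b w : ℕ) (hb : 2 ≤ b) (ε δ : ℝ) (hε : 0 < ε) (hδ : 0 < δ) :
    ∃ c : ℝ, 0 < c ∧ ∀ (A D : Set ℕ) (f : ℕ → ℕ), IsChoice A D f →
      (∀ K : ℕ, δ * (b : ℝ) ^ K ≤ #(upTo D (b ^ K)) → ∀ J : ℕ → ℕ → ℕ, Guesses b K ε D f J →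
        (∀ s : ℝ, 1 ≤ s → sensitivity b K J ≤ s →
          c * (b : ℝ) ^ K * Real.exp (c * K / s) ≤ ∑ n ∈ range (2 * b ^ K), (rep A n : ℝ) ^ 2) ∧
        (∀ v : ℕ, 1 ≤ v → (∀ i < K, FewDigits b v (J i)) →
          c * (b : ℝ) ^ K * Real.exp (c * K / v) ≤ ∑ n ∈ range (2 * b ^ K), (rep A n : ℝ) ^ 2) ∧
        ((∀ i < K, MemoryAndFewDigits b w i (J i)) →
          c * (b : ℝ) ^ K * √K ≤ ∑ n ∈ range (2 * b ^ K), (rep A n : ℝ) ^ 2)) ∧
      (∀ X : Set ℕ, X.Infinite → ∀ C : ℝ,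
        (∀ x ∈ X, ∑ n ∈ range (2 * x), (rep A n : ℝ) ^ 2 ≤ C * x) →
        {ψ : ℝ | 0 ≤ ψ ∧ ψ < 1 ∧ GuessedQuadratically δ X D f ψ}.Finite) := by
  obtain ⟨c₁, hc₁, h₁⟩ := sens_clause hC hA1 hA2 hA3 hA4 b hb ε δ hε hδ
  obtain ⟨c₂, hc₂, h₂⟩ := memory_clause b w hb ε δ hε hδ
  have hbr : (0 : ℝ) < b := by
    have : 0 < b := by omega
    exact_mod_cast this
  have hmono : ∀ c : ℝ, 0 < c → ∀ c' : ℝ, c ≤ c' → ∀ (K : ℕ) (s : ℝ), 0 < s →
      c * (b : ℝ) ^ K * Real.exp (c * K / s) ≤ c' * (b : ℝ) ^ K * Real.exp (c' * K / s) := by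
    intro c hc c' hcc' K s hs
    refine mul_le_mul (mul_le_mul_of_nonneg_right hcc' (by positivity)) ?_
      (Real.exp_pos _).le (mul_nonneg (hc.le.trans hcc') (by positivity))
    refine Real.exp_le_exp.2 ((div_le_div_iff_of_pos_right hs).2 ?_)
    exact mul_le_mul_of_nonneg_right hcc' (Nat.cast_nonneg _)
  refine ⟨min (c₁ / 2) c₂, lt_min (by positivity) hc₂, fun A D f hf =>
    ⟨fun K hD J hg => ⟨fun s hs hsens => ?_, fun v hv hJ => ?_, fun hJ => ?_⟩,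
      fun X hX C hr => quadratic_clause A D f hf X hX C δ hδ hr⟩⟩
  · refine (hmono _ (lt_min (by positivity) hc₂) c₁ ?_ K s (by linarith)).trans
      (h₁ A D f hf K hD J hg s hs hsens)
    exact (min_le_left _ _).trans (by linarith)
  · have hv0 : (1 : ℝ) ≤ v := by exact_mod_cast hv
    have hs := few_sensitivity hfew hb hJ
    have h3 := h₁ A D f hf K hD J hg (2 * v) (by linarith) hs
    refine le_trans ?_ h3
    refine (hmono _ (lt_min (by positivity) hc₂) (c₁ / 2) (min_le_left _ _) K v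
      (by linarith)).trans ?_
    have e : c₁ / 2 * K / v = c₁ * K / (2 * v) := by
      field_simp
    rw [e]
    refine mul_le_mul_of_nonneg_right ?_ (Real.exp_pos _).le
    exact mul_le_mul_of_nonneg_right (by linarith) (by positivity)
  · refine le_trans ?_ (h₂ A D f hf K hD J hg hJ)
    refine mul_le_mul_of_nonneg_right ?_ (Real.sqrt_nonneg _)
    exact mul_le_mul_of_nonneg_right (min_le_right _ _) (by positivity)

theorem main (b w : ℕ) (hb : 2 ≤ b) (ε δ : ℝ) (hε : 0 < ε) (hδ : 0 < δ) :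
    ∃ c : ℝ, 0 < c ∧ ∀ (A D : Set ℕ) (f : ℕ → ℕ), IsChoice A D f →
      (∀ K : ℕ, δ * (b : ℝ) ^ K ≤ #(upTo D (b ^ K)) → ∀ J : ℕ → ℕ → ℕ, Guesses b K ε D f J →
        (∀ s : ℝ, 1 ≤ s → sensitivity b K J ≤ s →
          c * (b : ℝ) ^ K * Real.exp (c * K / s) ≤ ∑ n ∈ range (2 * b ^ K), (rep A n : ℝ) ^ 2) ∧
        (∀ v : ℕ, 1 ≤ v → (∀ i < K, FewDigits b v (J i)) →
          c * (b : ℝ) ^ K * Real.exp (c * K / v) ≤ ∑ n ∈ range (2 * b ^ K), (rep A n : ℝ) ^ 2) ∧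
        ((∀ i < K, MemoryAndFewDigits b w i (J i)) →
          c * (b : ℝ) ^ K * √K ≤ ∑ n ∈ range (2 * b ^ K), (rep A n : ℝ) ^ 2)) ∧
      (∀ X : Set ℕ, X.Infinite → ∀ C : ℝ,
        (∀ x ∈ X, ∑ n ∈ range (2 * x), (rep A n : ℝ) ^ 2 ≤ C * x) →
        {ψ : ℝ | 0 ≤ ψ ∧ ψ < 1 ∧ GuessedQuadratically δ X D f ψ}.Finite) :=
  main_of (Pool.Agent.Helper43.SC.stC Pool.Agent.Helper99.SC.stT Pool.Agent.Helper81.SC.stB
      Pool.Agent.Helper99.SC.stL) Pool.Agent.Helper7.SC.stA1 Pool.Agent.Helper99.SC.stA2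
    Pool.Agent.Helper99.SC.stA3 Pool.Agent.Helper7.SC.stA4
    (fun b hb K w g Q hQ hg => Pool.Agent.Helper99.SC.few_sens b hb K w g Q hQ hg)
    b w hb ε δ hε hδ

end Pool.Agent.Helper57.U2
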